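import Pool.Agent.N407.BZ.Near
import Pool.Agent.Results.MP_fcb754_nt.AlmostAllWeights
import Pool.Agent.P8H49.WT.Diag

/-!
# The Lindelöf-type bound for the Barnes multiple zeta functions, all exponents and countably many functions at once, along the
orbits of the function of Euler

Let `V` be a `ℚ`-space in `ℝ` spanned by `v_1, …, v_d`. There are infinitely many Barnes zeta functions whose weights span `V`,
for instance with all the positive weights which are rational linear combinations of the `v_j`.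

For almost every `v ∈ ℝ^d` the following holds for EVERY sequence `Z_i = ζ_(r_i)(·; a_i, w_i)` of Barnes zeta functions, `a_i > 0`,
`r_i ≥ 2`, with positive weights `w_i` which span `V` (for example all rational weights, and all `a` in a given countable set). Let
`f_i` be a sequence of positive multiplicative functions of polynomial growth such that `f_i p ≤ M p` at the primes,
injective at the large primes (`LM`; for example the function of Euler and the sum of the divisors), and let `G_i`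
be functions with steps bounded below by a positive constant and growth at most `v ^ δ_i`, `δ_i ≥ 1`
(`Expanding`; for example `c v ^ δ_i`), and `0 ≤ κ_i < 1`. There is a function `K(m)` which tends to infinity such that
for almost all `m` (all but `ε N` of the `m ≤ N`, for all `N ≥ N(ε)`), for ALL `i, j ≤ K(m)` at once, with `v = f_i(φ_j(m))`,
`φ_j` the `j`-th iterate of the function of Euler:

  `|Z_i(σ + it)| ≤ t ^ ((δ_i - 1 + κ_i) / (2 δ_i) + 1 / K(m))`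

for ALL `t ≥ 2` with `|t - G_i(v)| ≤ v ^ κ_i` and all `σ` with `r_i - d / 2 ≤ σ ≤ K(m)`.

For functions `G_i` of linear growth and `κ_i = 0` the exponent is `1 / K(m)`: for almost all `m` the bound of Q1
holds, with an exponent tending to zero, in the full strip, for the first `K(m)` of the Barnes zeta functions, near all
the values `G_i(f_i(m)), G_i(f_i(φ(m))), G_i(f_i(φ(φ(m)))), …`, up to the `K(m)`-th iterate. The sets of these values are
sparse; already the numbers `φ(φ(m))` have density zero.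

Proof. For one function and one exponent this is the lemma `Pool.Agent.N407.BZ.ff_orb` of the starting library (mean squares
for almost all weights, and the theorem that the orbits of almost all `m` keep away from thin sets). A diagonal argument
(`Pool.Agent.P8H49.WT.diag`) over the pairs of a function and an exponent gives the uniform statement.
-/

set_option autoImplicit false

open Filter MeasureTheory

namespace Pool.Agent.Results.MP_fcb754_nt.EulerOrbits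

open Pool.Agent.N733.TG (LM Expanding lm_totient lm_sigma expanding_pow)
open Pool.Agent.Results.MP_fcb754_nt.AlmostAllWeights (IsBarnesZeta weightDim exists_zeta zeta_eq weightDim_eq)

/-- For every sequence `Z i` of Barnes zeta functions, of dimensions `r i ≥ 2`, with positive weights that span `V`, every
sequence `f i` of multiplicative functions and every sequence `G i` of functions of growth at most `v ^ δ i`, as above, and
all `0 ≤ κ i < 1` there is a function `K(m)` which tends to infinity such that for almost all `m`, for all `i, j ≤ K m`, for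
all `t ≥ 2` at a distance at most `v ^ κ i` from `G i v`, `v = f i (φ_j m)`, and all `σ` from `r i - dim V / 2` to `K m`
the value of `Z i` at `σ + i t` is at most `t ^ ((δ i - 1 + κ i) / (2 δ i) + 1 / K m)` in absolute value. -/
def SmallOnOrbits (V : Submodule ℚ ℝ) : Prop :=
  ∀ (r : ℕ → ℕ) (w : ∀ i, Fin (r i) → ℝ) (a : ℕ → ℝ) (Z : ℕ → ℂ → ℂ) (f : ℕ → ℕ → ℕ) (G : ℕ → ℕ → ℝ) (δ κ : ℕ → ℝ),
    (∀ i, 2 ≤ r i ∧ (∀ l, 0 < w i l) ∧ Submodule.span ℚ (Set.range (w i)) = V ∧ 0 < a i ∧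
      IsBarnesZeta (r i) (a i) (w i) (Z i) ∧ LM (f i) ∧ Expanding (G i) (δ i) ∧ 0 ≤ κ i ∧ κ i < 1) →
    ∃ K : ℕ → ℕ, Tendsto K atTop atTop ∧ ∀ ε : ℝ, 0 < ε → ∃ N₀ : ℕ, ∀ N : ℕ, N₀ ≤ N →
      ({m : ℕ | 1 ≤ m ∧ m ≤ N ∧ ∃ i ≤ K m, ∃ j ≤ K m, ∃ t σ : ℝ, 2 ≤ t ∧
        |t - G i (f i (Nat.totient^[j] m))| ≤ (f i (Nat.totient^[j] m) : ℝ) ^ κ i ∧
        (r i : ℝ) - (weightDim (r i) (w i) : ℝ) / 2 ≤ σ ∧ σ ≤ K m ∧
        t ^ ((δ i - 1 + κ i) / (2 * δ i) + 1 / (K m : ℝ)) < ‖Z i (σ + t * Complex.I)‖}.ncard : ℝ) ≤ ε * N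

theorem small_of_good {d : ℕ} {v : Fin d → ℝ} (hv : LinearIndependent ℚ v) (hGd : Pool.Agent.Y616.BM.Good v) :
    SmallOnOrbits (Submodule.span ℚ (Set.range v)) := by
  intro r w a Z f G δ κ h
  -- one function, one exponent
  have hone : ∀ i n : ℕ, ∃ L : ℕ → ℕ, Tendsto L atTop atTop ∧ ∀ ε : ℝ, 0 < ε → ∃ N₀ : ℕ, ∀ N : ℕ, N₀ ≤ N →
      ({m : ℕ | 1 ≤ m ∧ m ≤ N ∧ ∃ j ≤ L m, ∃ t σ : ℝ, 2 ≤ t ∧
        |t - G i (f i (Nat.totient^[j] m))| ≤ (f i (Nat.totient^[j] m) : ℝ) ^ κ i ∧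
        (r i : ℝ) - (d : ℝ) / 2 ≤ σ ∧ σ ≤ (n : ℝ) + 1 ∧
        t ^ ((δ i - 1 + κ i) / (2 * δ i) + 1 / ((n : ℝ) + 1)) < ‖Z i (σ + t * Complex.I)‖}.ncard : ℝ) ≤ ε * N := by
    intro i n
    obtain ⟨hr, hw, hspan, ha, hZ, hf, hG, hκ, hκ1⟩ := h i
    obtain ⟨c, hc⟩ := Pool.Agent.H131R5.BZ.exists_taylor (a i) hw
    have hδ := hG.one_le
    have hδ0 : 0 < δ i := by linarith
    have hn : (0 : ℝ) < (n : ℝ) + 1 := by positivity
    have hη : 0 ≤ (δ i - 1 + κ i) / (2 * δ i) + 1 / ((n : ℝ) + 1) := by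
      have h1 : 0 ≤ (δ i - 1 + κ i) / (2 * δ i) := div_nonneg (by linarith) (by linarith)
      have h2 : 0 < 1 / ((n : ℝ) + 1) := by positivity
      linarith
    have hlt : δ i * (1 - 2 * ((δ i - 1 + κ i) / (2 * δ i) + 1 / ((n : ℝ) + 1))) + κ i < 1 := by
      have e : δ i * (1 - 2 * ((δ i - 1 + κ i) / (2 * δ i) + 1 / ((n : ℝ) + 1))) + κ i =
          1 - 2 * δ i / ((n : ℝ) + 1) := by
        field_simp
        ring
      rw [e]
      have : 0 < 2 * δ i / ((n : ℝ) + 1) := by positivity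
      linarith
    obtain ⟨L, hL, hL2⟩ := Pool.Agent.N407.BZ.ff_orb hv hGd hr ha hw hspan hc hf hG ((n : ℝ) + 1) hη hκ hκ1 hlt
    refine ⟨L, hL, fun ε hε => ?_⟩
    obtain ⟨N₀, hN₀⟩ := hL2 ε hε
    refine ⟨N₀, fun N hN => le_trans (le_of_eq ?_) (hN₀ N hN)⟩
    congr 2
    ext m
    simp only [Set.mem_ofPred_eq]
    constructor
    · rintro ⟨g1, g2, j, gj, t, σ, g3, g4, g5, g6, g7⟩
      refine ⟨g1, g2, j, gj, t, σ, g3, g4, g5, g6, ?_⟩
      rw [← zeta_eq ha hw hc hZ σ (by linarith)]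
      exact g7
    · rintro ⟨g1, g2, j, gj, t, σ, g3, g4, g5, g6, g7⟩
      refine ⟨g1, g2, j, gj, t, σ, g3, g4, g5, g6, ?_⟩
      rw [zeta_eq ha hw hc hZ σ (by linarith)]
      exact g7
  obtain ⟨L, hL, hL2⟩ := Pool.Agent.P8H49.WT.diag (B := fun e j m => ∃ t σ : ℝ, 2 ≤ t ∧
        |t - G e.unpair.1 (f e.unpair.1 (Nat.totient^[j] m))| ≤
          (f e.unpair.1 (Nat.totient^[j] m) : ℝ) ^ κ e.unpair.1 ∧
        (r e.unpair.1 : ℝ) - (d : ℝ) / 2 ≤ σ ∧ σ ≤ (e.unpair.2 : ℝ) + 1 ∧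
        t ^ ((δ e.unpair.1 - 1 + κ e.unpair.1) / (2 * δ e.unpair.1) + 1 / ((e.unpair.2 : ℝ) + 1)) <
          ‖Z e.unpair.1 (σ + t * Complex.I)‖) (fun e => hone e.unpair.1 e.unpair.2)
  obtain ⟨K, hKdef⟩ : ∃ K : ℕ → ℕ, K = fun m => Nat.sqrt (L m) - 1 := ⟨_, rfl⟩
  have hK : Tendsto K atTop atTop := by
    rw [tendsto_atTop]
    intro b
    filter_upwards [tendsto_atTop.1 hL ((b + 1) * (b + 1))] with m hm
    rw [hKdef]
    have h1 : b + 1 ≤ Nat.sqrt (L m) := Nat.le_sqrt.2 hm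
    show b ≤ Nat.sqrt (L m) - 1
    omega
  have hKL : ∀ m, K m ≤ L m := by
    intro m
    rw [hKdef]
    exact (Nat.sub_le _ _).trans (Nat.sqrt_le_self _)
  have hpair : ∀ m i, 1 ≤ K m → i ≤ K m → Nat.pair i (K m - 1) ≤ L m := by
    intro m i h1 h2
    have h3 := Nat.pair_lt_max_add_one_sq i (K m - 1)
    have h4 : max i (K m - 1) + 1 ≤ Nat.sqrt (L m) := by
      have h5 : K m = Nat.sqrt (L m) - 1 := by rw [hKdef]
      have h6 : max i (K m - 1) ≤ K m := max_le h2 (Nat.sub_le _ _)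
      omega
    have h7 : (max i (K m - 1) + 1) ^ 2 ≤ L m := by
      calc (max i (K m - 1) + 1) ^ 2 ≤ Nat.sqrt (L m) ^ 2 := Nat.pow_le_pow_left h4 2
        _ ≤ L m := Nat.sqrt_le' _
    omega
  obtain ⟨m₀, hm₀⟩ := (tendsto_atTop.1 hK 1).exists_forall_of_atTop
  refine ⟨K, hK, fun ε hε => ?_⟩
  obtain ⟨N₀, hN₀⟩ := hL2 (ε / 2) (half_pos hε)
  obtain ⟨N₁, hN₁⟩ := exists_nat_gt (2 * (m₀ : ℝ) / ε)
  refine ⟨max N₀ N₁, fun N hN => ?_⟩
  have h1 := hN₀ N ((le_max_left _ _).trans hN)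
  have h2 : (m₀ : ℝ) ≤ ε / 2 * N := by
    have e1 : (N₁ : ℝ) ≤ N := by exact_mod_cast (le_max_right _ _).trans hN
    have e2 : 2 * (m₀ : ℝ) / ε < N := lt_of_lt_of_le hN₁ e1
    rw [div_lt_iff₀ hε] at e2
    linarith
  obtain ⟨S, hS⟩ : ∃ S : Set ℕ, S = {m : ℕ | 1 ≤ m ∧ m ≤ N ∧ ∃ e ≤ L m, ∃ j ≤ L m, ∃ t σ : ℝ, 2 ≤ t ∧
        |t - G e.unpair.1 (f e.unpair.1 (Nat.totient^[j] m))| ≤
          (f e.unpair.1 (Nat.totient^[j] m) : ℝ) ^ κ e.unpair.1 ∧
        (r e.unpair.1 : ℝ) - (d : ℝ) / 2 ≤ σ ∧ σ ≤ (e.unpair.2 : ℝ) + 1 ∧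
        t ^ ((δ e.unpair.1 - 1 + κ e.unpair.1) / (2 * δ e.unpair.1) + 1 / ((e.unpair.2 : ℝ) + 1)) <
          ‖Z e.unpair.1 (σ + t * Complex.I)‖} := ⟨_, rfl⟩
  have h1' : (S.ncard : ℝ) ≤ ε / 2 * N := by
    rw [hS]
    exact h1
  have hfin : S.Finite := by
    rw [hS]
    exact (Set.finite_Icc 1 N).subset fun m hm => ⟨hm.1, hm.2.1⟩
  have hsub : {m : ℕ | 1 ≤ m ∧ m ≤ N ∧ ∃ i ≤ K m, ∃ j ≤ K m, ∃ t σ : ℝ, 2 ≤ t ∧
        |t - G i (f i (Nat.totient^[j] m))| ≤ (f i (Nat.totient^[j] m) : ℝ) ^ κ i ∧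
        (r i : ℝ) - (weightDim (r i) (w i) : ℝ) / 2 ≤ σ ∧ σ ≤ K m ∧
        t ^ ((δ i - 1 + κ i) / (2 * δ i) + 1 / (K m : ℝ)) < ‖Z i (σ + t * Complex.I)‖} ⊆
      ((Finset.Ico 1 m₀ : Finset ℕ) : Set ℕ) ∪ S := by
    rintro m ⟨k1, k2, i, hi, j, hj, t, σ, k3, k4, k5, k6, k7⟩
    by_cases hm : m < m₀
    · left
      rw [Finset.mem_coe, Finset.mem_Ico]
      exact ⟨k1, hm⟩
    · right
      rw [not_lt] at hm
      have hK1 := hm₀ m hm
      have hcast : (((K m - 1 : ℕ) : ℝ)) + 1 = K m := by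
        have : K m - 1 + 1 = K m := by omega
        exact_mod_cast this
      rw [hS]
      refine ⟨k1, k2, Nat.pair i (K m - 1), hpair m i hK1 hi, j, hj.trans (hKL m), t, σ, k3, ?_⟩
      rw [weightDim_eq hv (h i).2.2.1] at k5
      simp only [Nat.unpair_pair]
      rw [hcast]
      exact ⟨k4, k5, k6, k7⟩
  have h3 := (Set.ncard_le_ncard hsub ((Finset.finite_toSet _).union hfin)).trans (Set.ncard_union_le _ _)
  rw [Set.ncard_coe_finset] at h3
  have h4 : (Finset.Ico 1 m₀).card ≤ m₀ := by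
    rw [Nat.card_Ico]
    omega
  have h5 := h3.trans (Nat.add_le_add_right h4 _)
  have h6 : ({m : ℕ | 1 ≤ m ∧ m ≤ N ∧ ∃ i ≤ K m, ∃ j ≤ K m, ∃ t σ : ℝ, 2 ≤ t ∧
        |t - G i (f i (Nat.totient^[j] m))| ≤ (f i (Nat.totient^[j] m) : ℝ) ^ κ i ∧
        (r i : ℝ) - (weightDim (r i) (w i) : ℝ) / 2 ≤ σ ∧ σ ≤ K m ∧
        t ^ ((δ i - 1 + κ i) / (2 * δ i) + 1 / (K m : ℝ)) < ‖Z i (σ + t * Complex.I)‖}.ncard : ℝ) ≤
      (m₀ : ℝ) + (S.ncard : ℝ) := by
    exact_mod_cast h5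
  linarith

/-- (1) The Barnes multiple zeta function exists (as defined in `AlmostAllWeights`) for all `r`, `a > 0` and positive weights `w`.
(2) For every `d` and almost every `v ∈ ℝ^d` the numbers `v_1, …, v_d` are linearly independent over `ℚ` and the space `V`
spanned by them satisfies `SmallOnOrbits V`. (3) Euler's function and the sum of the divisors are examples of `f`, and
`c v ^ δ` with `c > 0`, `δ ≥ 1` is an example of `G`. -/
theorem result :
    (∀ (r : ℕ) (a : ℝ) (w : Fin r → ℝ), 0 < a → (∀ i, 0 < w i) → ∃ Z : ℂ → ℂ, IsBarnesZeta r a w Z) ∧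
    (∀ d : ℕ, ∀ᵐ v : Fin d → ℝ, LinearIndependent ℚ v ∧ SmallOnOrbits (Submodule.span ℚ (Set.range v))) ∧
    (LM Nat.totient ∧ LM (fun m => ∑ d ∈ m.divisors, d)) ∧
    ∀ c δ : ℝ, 0 < c → 1 ≤ δ → Expanding (fun v => c * (v : ℝ) ^ δ) δ := by
  refine ⟨exists_zeta, fun d => ?_, ⟨lm_totient, lm_sigma⟩, fun c δ hc hδ => expanding_pow hc hδ⟩
  filter_upwards [Pool.Agent.Y616.BM.ae_good d, Pool.Agent.Y616.BM.ae_indep d] with v hG hv
  exact ⟨hv, small_of_good hv hG⟩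

end Pool.Agent.Results.MP_fcb754_nt.EulerOrbits
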