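import Pool.Agent.N407.BZ.Near
import Pool.Agent.Results.MP_fcb754_nt.AlmostAllWeights
import Pool.Agent.R482.ST.Star

/-!
# The Lindelöf-type bound for the Barnes multiple zeta functions in windows near powers, orbits and other sequences

Let `V` be a `ℚ`-space in `ℝ` spanned by `v_1, …, v_d`. There are infinitely many Barnes zeta functions whose weights span `V`,
for instance with all the positive weights which are rational linear combinations of the `v_j`.

Let `f_n`, `n = 0, 1, 2, …`, be positive functions on `(a, ∞)`, `a ≥ 0`, such that `f_n(x) / x` is nondecreasing, and such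
that the sequence `f_n(x)` has exponent of convergence at most `τ` for each `x > a`: for instance `f_n(x) = u_n x` (`τ = 0` for
`u_n = 2 ^ n`, `τ = 1 / k` for `u_n = (n + 1) ^ k`), `f_n(x) = x ^ (u_n)` for exponents `u_n ≥ 1` (`τ = 0`; for example all
powers), and the orbits `f_n(x) = g (g (⋯ g (x)))` of any map `g` with `g(x) > x` and `g(x) / x` nondecreasing (`τ = 0`).

For almost every `v ∈ ℝ^d` the following holds for EVERY sequence `Z_i = ζ_(r_i)(·; b_i, w_i)` of Barnes zeta functions, `b_i > 0`,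
`r_i ≥ 2`, with positive weights `w_i` which span `V`, for all such `f_n`, `0 ≤ θ < 1` and `η ≥ 0`: for all
`α > a` outside a set `E` of Hausdorff dimension at most `(max(1 - 2 η, 0) + τ) / (1 - θ)`, for all `i`, `c` and `σ₁`, for all but
finitely many `n`, the bound of Q1 with the exponent `η`

  `|Z_i(σ + it)| ≤ t ^ η`

holds for ALL `t ≥ 2` with `|t - f_n(α)| ≤ c f_n(α) ^ θ` and all `σ` with `r_i - d / 2 ≤ σ ≤ σ₁`.

For `τ = 0` and `θ = 0` the set `E` has a dimension at most `1 - 2 η < 1`. So for almost all `α` the bound of Q1 with every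
exponent `η > 0` holds in the full strip near all but finitely many of the powers `α ^ n`, and for `η ≥ 1 / 2`
it holds for all `α` outside a set of dimension zero, and even for windows of every exponent `θ < 1`.

Proof. The number of the `n ≤ X` such that the bound fails at some `t ∈ [n, n + 1]` is `O(X ^ (1 - 2 η + ε))` (starting library,
`Pool.Agent.N407.BZ.ff_count`, mean squares for almost all weights), and the functions `f_n` spread the `α`
which come near such an `n` (`Pool.Agent.R482.ST.windows`). The exceptional sets of countably many functions and ranges of `σ`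
are put together.
-/

set_option autoImplicit false

open Filter MeasureTheory

namespace Pool.Agent.Results.MP_fcb754_nt.StarshapedWindows

open Pool.Agent.Results.MP_fcb754_nt.AlmostAllWeights (IsBarnesZeta weightDim exists_zeta zeta_eq weightDim_eq)

/-- the functions `f n` are positive on `(a, ∞)`, `a ≥ 0`, and `f n x / x` is nondecreasing there -/
def Starshaped (a : ℝ) (f : ℕ → ℝ → ℝ) : Prop :=
  0 ≤ a ∧ ∀ n : ℕ, ∀ x y : ℝ, a < x → x ≤ y → 0 < f n x ∧ f n x / x ≤ f n y / y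

/-- for each `x > a` the exponent of convergence of the sequence `f n x` is at most `τ` -/
def ExpLe (a : ℝ) (f : ℕ → ℝ → ℝ) (τ : ℝ) : Prop :=
  ∀ x : ℝ, a < x → ∀ t : ℝ, τ < t → Summable (fun n : ℕ => (f n x) ^ (-t))

/-- For every sequence `Z i` of Barnes zeta functions, of dimensions `r i ≥ 2`, with positive weights that span `V`, and all
`f`, `τ`, `0 ≤ θ < 1`, `η ≥ 0` as above there is a set `E` of Hausdorff dimension at most
`(max (1 - 2 η) 0 + τ) / (1 - θ)` such that for all `α > a` outside `E`, all `i`, `c` and `σ₁`, for all but finitely many `n`, for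
all `t ≥ 2` at a distance at most `c (f n α) ^ θ` from `f n α` and all `σ` from `r i - dim V / 2` to `σ₁` the value of
`Z i` at `σ + i t` is at most `t ^ η` in absolute value. -/
def SmallInWindows (V : Submodule ℚ ℝ) : Prop :=
  ∀ (r : ℕ → ℕ) (w : ∀ i, Fin (r i) → ℝ) (b : ℕ → ℝ) (Z : ℕ → ℂ → ℂ),
    (∀ i, 2 ≤ r i ∧ (∀ l, 0 < w i l) ∧ Submodule.span ℚ (Set.range (w i)) = V ∧ 0 < b i ∧
      IsBarnesZeta (r i) (b i) (w i) (Z i)) →
    ∀ (a : ℝ) (f : ℕ → ℝ → ℝ) (τ θ η : ℝ), Starshaped a f → 0 ≤ τ → ExpLe a f τ → 0 ≤ θ → θ < 1 → 0 ≤ η →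
      ∃ E : Set ℝ, dimH E ≤ ENNReal.ofReal ((max (1 - 2 * η) 0 + τ) / (1 - θ)) ∧
        ∀ α : ℝ, a < α → α ∉ E → ∀ (i : ℕ) (c σ₁ : ℝ), ∃ n₀ : ℕ, ∀ n : ℕ, n₀ ≤ n → ∀ t σ : ℝ, 2 ≤ t →
          |t - f n α| ≤ c * (f n α) ^ θ → (r i : ℝ) - (weightDim (r i) (w i) : ℝ) / 2 ≤ σ → σ ≤ σ₁ →
            ‖Z i (σ + t * Complex.I)‖ ≤ t ^ η

theorem small_of_good {d : ℕ} {v : Fin d → ℝ} (hv : LinearIndependent ℚ v) (hGd : Pool.Agent.Y616.BM.Good v) :
    SmallInWindows (Submodule.span ℚ (Set.range v)) := by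
  intro r w b Z h a f τ θ η hf hτ hE hθ hθ1 hη
  have hs0 : 0 ≤ max (1 - 2 * η) 0 := le_max_right _ _
  -- Taylor coefficients
  have htay : ∀ i, ∃ c : ℕ → ℂ, Pool.Agent.Y930.Bz.Tay (b i) (w i) c := fun i =>
    Pool.Agent.H131R5.BZ.exists_taylor (b i) (h i).2.1
  choose c hc using htay
  -- the exceptional set of one function and one range of `σ`
  have hone : ∀ i k : ℕ, ∃ E : Set ℝ, dimH E ≤ ENNReal.ofReal ((max (1 - 2 * η) 0 + τ) / (1 - θ)) ∧
      ∀ x : ℝ, a < x → x ∉ E → ∀ C : ℝ, ∃ n₀ : ℕ, ∀ n : ℕ, n₀ ≤ n →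
        ∀ t ∈ {n : ℕ | 1 ≤ n ∧ Pool.Agent.N407.BZ.BadAt (b i) (w i) (c i) ((r i : ℝ) - d / 2) k η n},
          C * (f n x) ^ θ < |(t : ℝ) - f n x| := by
    intro i k
    obtain ⟨hr, hw, hspan, hb, hZ⟩ := h i
    refine Pool.Agent.R482.ST.windows (T := ℕ) _ (fun n : ℕ => (n : ℝ)) hf hτ hE hs0 hθ1 (fun ε hε => ?_)
    have h1 : 0 < max (1 - 2 * η) 0 + ε := by linarith
    have h2 : 1 - 2 * η < max (1 - 2 * η) 0 + ε := by
      have := le_max_left (1 - 2 * η) (0 : ℝ)
      linarith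
    obtain ⟨K, hK, h3⟩ := Pool.Agent.N407.BZ.ff_count hv hGd hr hb hw hspan (hc i) (k : ℝ) hη h1 h2
    refine ⟨K, fun X hX => ?_⟩
    have h4 : 1 ≤ ⌊X⌋₊ := Nat.le_floor (by push_cast; linarith)
    have e : {t : ℕ | t ∈ {n : ℕ | 1 ≤ n ∧ Pool.Agent.N407.BZ.BadAt (b i) (w i) (c i) ((r i : ℝ) - d / 2) k η n} ∧
        (t : ℝ) ≤ X} = {n : ℕ | 1 ≤ n ∧ n ≤ ⌊X⌋₊ ∧
          Pool.Agent.N407.BZ.BadAt (b i) (w i) (c i) ((r i : ℝ) - d / 2) k η n} := by
      ext n
      simp only [Set.mem_ofPred_eq]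
      rw [Nat.le_floor_iff (by linarith)]
      constructor
      · rintro ⟨⟨g1, g2⟩, g3⟩
        exact ⟨g1, g3, g2⟩
      · rintro ⟨g1, g2, g3⟩
        exact ⟨⟨g1, g3⟩, g2⟩
    rw [e]
    refine ⟨(Set.finite_Iic ⌊X⌋₊).subset (fun n hn => hn.2.1), (h3 _ h4).trans ?_⟩
    refine mul_le_mul_of_nonneg_left ?_ hK
    exact Real.rpow_le_rpow (Nat.cast_nonneg _) (Nat.floor_le (by linarith)) h1.le
  choose E hE1 hE2 using hone
  refine ⟨⋃ i, ⋃ k, E i k, ?_, fun α hα hαE i C σ₁ => ?_⟩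
  · rw [dimH_iUnion]
    refine iSup_le fun i => ?_
    rw [dimH_iUnion]
    exact iSup_le fun k => hE1 i k
  · obtain ⟨hr, hw, hspan, hb, hZ⟩ := h i
    obtain ⟨k, hk⟩ := exists_nat_ge σ₁
    obtain ⟨n₁, hn₁⟩ := hE2 i k α hα
      (fun hmem => hαE (Set.mem_iUnion.2 ⟨i, Set.mem_iUnion.2 ⟨k, hmem⟩⟩)) (|C| + 1)
    have hpos : ∀ n, 0 < f n α := fun n => (hf.2 n α α hα le_rfl).1
    obtain ⟨n₂, hn₂⟩ := (Pool.Agent.R482.ST.large hpos (t := τ + 1) (by linarith)
      (hE α hα (τ + 1) (by linarith)) 1).exists_forall_of_atTop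
    refine ⟨max n₁ n₂, fun n hn t σ ht hwin hσ hσ1 => ?_⟩
    by_contra hcon
    push Not at hcon
    rw [weightDim_eq hv hspan] at hσ
    rw [zeta_eq hb hw (hc i) hZ σ (by linarith)] at hcon
    have hbad := Pool.Agent.N407.BZ.bad_floor ht hσ (hσ1.trans hk) hcon
    have h1 := hn₁ n ((le_max_left _ _).trans hn) ⌊t⌋₊ hbad
    have h2 : 1 ≤ f n α := hn₂ n ((le_max_right _ _).trans hn)
    have h3 : 1 ≤ (f n α) ^ θ := Real.one_le_rpow h2 hθ
    have h4 := Nat.floor_le (show (0 : ℝ) ≤ t by linarith)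
    have h5 := Nat.lt_floor_add_one t
    have h6 : C * (f n α) ^ θ ≤ |C| * (f n α) ^ θ := mul_le_mul_of_nonneg_right (le_abs_self C) (by linarith)
    have h7 : |((⌊t⌋₊ : ℕ) : ℝ) - f n α| ≤ 1 + |t - f n α| := by
      obtain ⟨e1, e2⟩ := abs_le.1 (le_refl |t - f n α|)
      rw [abs_le]
      constructor <;> linarith
    have h8 : (|C| + 1) * (f n α) ^ θ = |C| * (f n α) ^ θ + (f n α) ^ θ := by ring
    linarith

/-- (1) The Barnes multiple zeta function exists (as defined in `AlmostAllWeights`) for all `r`, `b > 0` and positive weights `w`.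
(2) For every `d` and almost every `v ∈ ℝ^d` the numbers `v_1, …, v_d` are linearly independent over `ℚ` and the space `V`
spanned by them satisfies `SmallInWindows V`. (3) The functions `u_n x`, `u_n > 0`, are starshaped on `(0, ∞)`, of exponent `τ` if
`u` has exponent of convergence at most `τ`; the functions `x ^ (u_n)`, `u_n ≥ 1`, are starshaped on `(1, ∞)`, of exponent `0` if
the sums of `exp (-t u_n)` converge for `t > 0`; and the iterates of a map `g` with `g(x) > x` for `x > a` and `g(x) / x`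
nondecreasing are starshaped on `(a, ∞)`, of exponent `0`. -/
theorem result :
    (∀ (r : ℕ) (b : ℝ) (w : Fin r → ℝ), 0 < b → (∀ i, 0 < w i) → ∃ Z : ℂ → ℂ, IsBarnesZeta r b w Z) ∧
    (∀ d : ℕ, ∀ᵐ v : Fin d → ℝ, LinearIndependent ℚ v ∧ SmallInWindows (Submodule.span ℚ (Set.range v))) ∧
    (∀ (u : ℕ → ℝ) (τ : ℝ), (∀ n, 0 < u n) → (∀ t : ℝ, τ < t → Summable (fun n : ℕ => (u n) ^ (-t))) →
      Starshaped 0 (fun n x => u n * x) ∧ ExpLe 0 (fun n x => u n * x) τ) ∧
    (∀ u : ℕ → ℝ, (∀ n, 1 ≤ u n) → (∀ t : ℝ, 0 < t → Summable fun n : ℕ => Real.exp (-(t * u n))) →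
      Starshaped 1 (fun n x => x ^ (u n)) ∧ ExpLe 1 (fun n x => x ^ (u n)) 0) ∧
    (∀ (a : ℝ) (g : ℝ → ℝ), 0 ≤ a → (∀ x y : ℝ, a < x → x ≤ y → g x / x ≤ g y / y) → (∀ x : ℝ, a < x → x < g x) →
      Starshaped a (fun n x => g^[n] x) ∧ ExpLe a (fun n x => g^[n] x) 0) := by
  refine ⟨exists_zeta, fun d => ?_, Pool.Agent.R482.ST.ex_mul, Pool.Agent.R482.ST.ex_pow,
    Pool.Agent.R482.ST.ex_orbit⟩
  filter_upwards [Pool.Agent.Y616.BM.ae_good d, Pool.Agent.Y616.BM.ae_indep d] with v hG hv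
  exact ⟨hv, small_of_good hv hG⟩

end Pool.Agent.Results.MP_fcb754_nt.StarshapedWindows
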